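import Pool.Agent.Helper72.LSr.N1
import Pool.Agent.Helper72.LSr.C1

/-!
# LR-I5: the identity (G)
-/

namespace Pool.Agent.Helper44.LSr

open Finset
open scoped Classical
open Pool.Agent.Helper72.LSr

variable {V : Type} (G : SimpleGraph V) (S : Finset V)

theorem I5_card {u : V} {Q : Finset V} (hQ : Q ⊆ nb G S u) :
    (((nb G S u \ Q).card : ℕ) : ℤ) = (nb G S u).card - Q.card := by
  rw [card_sdiff_of_subset hQ]
  rw [Nat.cast_sub (card_le_card hQ)]

theorem I5_sq (k A B : ℕ) {u : V} {Q : Finset V} (hQ : Q ⊆ nb G S u) :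
    K G (nb G S u \ Q) 2 = K G (nb G S u) 2 - Q.card * EE k A B + sq k A B G S u Q := by
  rw [K_two_sdiff G (nb G S u) Q hQ]
  unfold Pool.Agent.Helper72.LSr.sq cv
  rw [sum_sub_distrib, sum_const, nsmul_eq_mul]
  have h : ∑ x ∈ Q, ((nb G (nb G S u) x).card : ℤ)
      = ∑ x ∈ Q, ((nb G S u ∩ nb G S x).card : ℤ) := by
    refine sum_congr rfl fun x _ => ?_
    rw [nb_nb]
  rw [h]
  ring

theorem gS_nb_sdiff (k A B : ℕ) {u : V} {Q : Finset V} (hu : u ∈ S) (hQ : Q ⊆ nb G S u) :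
    gS k A B G (nb G S u \ Q) = Yv k (A + 1) B G S u - sq k (A + 1) B G S u Q := by
  unfold gS Yv
  rw [gg_drop, I5_sq G S k (A + 1) B hQ]
  unfold th nu
  rw [I5_card G S hQ]
  ring

theorem MS_nb_sdiff (k A B : ℕ) {u : V} {Q : Finset V} (hQ : Q ⊆ nb G S u) :
    MS k A B (nb G S u \ Q) = Dv k (A + 1) B G S u + Q.card := by
  unfold MS Dv
  rw [Mm_drop]
  unfold Mm nu
  rw [I5_card G S hQ]
  ring

theorem gam_add (k A B j : ℕ) {u : V} {Q : Finset V} (hu : u ∈ S) (hQ : Q ⊆ nb G S u) :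
    gam k A B j G S u Q + Phi k A B (j + 1) G (nb G S u) = con k A B j G S u Q := by
  unfold gam con Phi Vl th nu
  rw [I5_sq G S k (A + 1) B hQ, I5_card G S hQ, EE_sA]
  rw [show j + 2 = (j + 1) + 1 from rfl, es_sA]
  rw [show j + 1 + 1 = j + 2 from rfl]
  ring

theorem gam_ge (k A B j : ℕ) {u : V} {Q : Finset V} (hQ : Q ⊆ nb G S u) :
    ∑ x ∈ Q, (es k (A + 1) B (j + 2) - K G (nb G S u ∩ nb G S x) (j + 1))
      ≤ gam k A B j G S u Q := by
  have h := K_sub_sdiff_le G (nb G S u) Q hQ (j + 1)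
  have h2 : ∑ x ∈ Q, K G (nb G (nb G S u) x) (j + 1)
      = ∑ x ∈ Q, K G (nb G S u ∩ nb G S x) (j + 1) := by
    refine sum_congr rfl fun x _ => ?_
    rw [nb_nb]
  rw [h2] at h
  unfold gam
  rw [sum_sub_distrib, sum_const, nsmul_eq_mul]
  have h3 : K G (nb G S u) (j + 1 + 1) - K G (nb G S u \ Q) (j + 1 + 1)
      = K G (nb G S u) (j + 2) - K G (nb G S u \ Q) (j + 2) := rfl
  rw [h3] at h
  linarith

end Pool.Agent.Helper44.LSr
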